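import Mathlib

/-!
# A bounded tolerance graph which is not a max-tolerance graph

For `n ≥ 4` the cocktail party graph `K_{2,…,2}` with `n` parts is a bounded tolerance graph, but it
is not a max-tolerance graph.

Let `[L, R]` be the interval and `t` the tolerance of a vertex of a max-tolerance representation. Two
vertices (with `t ≤ R - L`) are adjacent if and only if they are adjacent in the three interval
graphs given by the intervals `[L, R - t]`, `[L + t, R]` and `[t, R - L]`. So max-tolerance graphs
have boxicity at most three, and the cocktail party graph with `n` parts has boxicity `n`.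
-/

set_option autoImplicit false

namespace Pool.Agent.Results.MP_78c384_co.CocktailParty

/-- The length of the intersection of the intervals `[a, b]` and `[c, d]` (`0` if it is empty). -/
noncomputable def interLength (a b c d : ℝ) : ℝ := max 0 (min b d - max a c)

/-- `G` is a bounded tolerance graph: vertex `v` has the interval `[L v, R v]` and the tolerance
`t v > 0`, `t v ≤ R v - L v`, and distinct vertices are adjacent if and only if the length of the
intersection of their intervals is at least the minimum of their tolerances. -/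
def IsBoundedTolerance {V : Type} (G : SimpleGraph V) : Prop :=
  ∃ L R t : V → ℝ, (∀ v, L v ≤ R v) ∧ (∀ v, 0 < t v) ∧ (∀ v, t v ≤ R v - L v) ∧
    ∀ x y, x ≠ y → (G.Adj x y ↔ min (t x) (t y) ≤ interLength (L x) (R x) (L y) (R y))

/-- `G` is a max-tolerance graph: vertex `v` has the interval `[L v, R v]` and the tolerance
`t v > 0`, and distinct vertices are adjacent if and only if the length of the intersection of their
intervals is at least the maximum of their tolerances. -/
def IsMaxTolerance {V : Type} (G : SimpleGraph V) : Prop :=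
  ∃ L R t : V → ℝ, (∀ v, L v ≤ R v) ∧ (∀ v, 0 < t v) ∧
    ∀ x y, x ≠ y → (G.Adj x y ↔ max (t x) (t y) ≤ interLength (L x) (R x) (L y) (R y))

/-- The cocktail party graph with `n` parts of two vertices: two vertices are adjacent if and only if
they are in different parts. -/
def cocktail (n : ℕ) : SimpleGraph (Fin n × Bool) where
  Adj x y := x.1 ≠ y.1
  symm := ⟨fun _ _ h => h.symm⟩
  loopless := ⟨fun _ h => h rfl⟩

/-- adjacency in a max-tolerance representation, in terms of inequalities -/
lemma max_adj_iff {a b t c d s : ℝ} (ht : 0 < t) :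
    max t s ≤ interLength a b c d ↔
      (t ≤ b - a ∧ s ≤ b - a) ∧ (t ≤ b - c ∧ s ≤ b - c) ∧ (t ≤ d - a ∧ s ≤ d - a) ∧
        (t ≤ d - c ∧ s ≤ d - c) := by
  have h0 : 0 < max t s := lt_of_lt_of_le ht (le_max_left _ _)
  have h1 : max t s ≤ interLength a b c d ↔ max t s ≤ min b d - max a c := by
    unfold interLength
    rw [le_max_iff]
    constructor
    · rintro (h | h)
      · exact absurd h (not_le.mpr h0)
      · exact h
    · exact Or.inr
  rw [h1]
  have h2 : min b d - max a c = min (min (b - a) (b - c)) (min (d - a) (d - c)) := by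
    rcases le_total a c with h | h <;> rcases le_total b d with h' | h' <;>
      simp only [max_eq_left, max_eq_right, min_eq_left, min_eq_right, h, h', sub_le_sub_iff_left,
        sub_le_sub_iff_right]
  rw [h2, max_le_iff, le_min_iff, le_min_iff, le_min_iff, le_min_iff, le_min_iff, le_min_iff]
  tauto

/-- the interval `[a, b]` lies to the left of the interval `[c, d]`, or conversely -/
def Apart (a b c d : ℝ) : Prop := b < c ∨ d < a

/-- Nonadjacent vertices with `t ≤ R - L` are separated in one of three interval graphs. -/
lemma apart_of_not {a b t c d s : ℝ} (ht : 0 < t) (h1 : t ≤ b - a) (h2 : s ≤ d - c)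
    (h : ¬ max t s ≤ interLength a b c d) :
    Apart a (b - t) c (d - s) ∨ Apart (a + t) b (c + s) d ∨ Apart t (b - a) s (d - c) := by
  by_contra hcon
  unfold Apart at hcon
  push Not at hcon
  obtain ⟨⟨h3, h4⟩, ⟨h5, h6⟩, h7, h8⟩ := hcon
  apply h
  rw [max_adj_iff ht]
  refine ⟨⟨h1, h7⟩, ⟨?_, ?_⟩, ⟨?_, ?_⟩, ⟨h8, h2⟩⟩ <;> linarith

/-- Adjacent vertices are not separated in any of the three interval graphs. -/
lemma not_apart {a b t c d s : ℝ} (ht : 0 < t) (h : max t s ≤ interLength a b c d) :
    ¬ Apart a (b - t) c (d - s) ∧ ¬ Apart (a + t) b (c + s) d ∧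
      ¬ Apart t (b - a) s (d - c) := by
  rw [max_adj_iff ht] at h
  obtain ⟨⟨h1, h2⟩, ⟨h3, h4⟩, ⟨h5, h6⟩, h7, h8⟩ := h
  unfold Apart
  push Not
  refine ⟨⟨?_, ?_⟩, ⟨?_, ?_⟩, ?_, ?_⟩ <;> linarith

/-- two separated pairs of intervals contain a separated cross pair -/
lemma cross {a b : Bool → ℝ} {c d : Bool → ℝ}
    (h1 : Apart (a false) (b false) (a true) (b true))
    (h2 : Apart (c false) (d false) (c true) (d true)) :
    ∃ u v : Bool, Apart (a u) (b u) (c v) (d v) := by
  by_contra hcon
  push Not at hcon
  have h := fun u v => hcon u v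
  unfold Apart at h h1 h2
  push Not at h
  have e1 := h false false
  have e2 := h false true
  have e3 := h true false
  have e4 := h true true
  rcases h1 with h1 | h1 <;> rcases h2 with h2 | h2 <;> linarith [e1.1, e1.2, e2.1, e2.2, e3.1,
    e3.2, e4.1, e4.2]

/-- The cocktail party graph with at least four parts is not a max-tolerance graph. -/
theorem not_max {n : ℕ} (hn : 4 ≤ n) : ¬ IsMaxTolerance (cocktail n) := by
  rintro ⟨L, R, t, -, ht, h⟩
  -- every vertex has a neighbour, so `t ≤ R - L`
  have hbd : ∀ v : Fin n × Bool, t v ≤ R v - L v := by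
    intro v
    obtain ⟨w, hw⟩ : ∃ w : Fin n, w ≠ v.1 := by
      have : Nontrivial (Fin n) := Fin.nontrivial_iff_two_le.mpr (by omega)
      exact exists_ne v.1
    have h1 : (cocktail n).Adj v (w, false) := fun h => hw h.symm
    have h2 := (h v (w, false) h1.ne).mp h1
    exact ((max_adj_iff (ht v)).mp h2).1.1
  -- the direction in which the two vertices of a part are separated
  have hdir : ∀ i : Fin n, ∃ k : Fin 3,
      Apart (![L (i, false), L (i, false) + t (i, false), t (i, false)] k)
        (![R (i, false) - t (i, false), R (i, false), R (i, false) - L (i, false)] k)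
        (![L (i, true), L (i, true) + t (i, true), t (i, true)] k)
        (![R (i, true) - t (i, true), R (i, true), R (i, true) - L (i, true)] k) := by
    intro i
    have h1 : ¬ (cocktail n).Adj (i, false) (i, true) := fun h => h rfl
    have h2 : ¬ max (t (i, false)) (t (i, true)) ≤
        interLength (L (i, false)) (R (i, false)) (L (i, true)) (R (i, true)) := fun h' =>
      h1 ((h (i, false) (i, true) (by simp)).mpr h')
    rcases apart_of_not (ht _) (hbd _) (hbd _) h2 with h3 | h3 | h3
    · exact ⟨0, h3⟩
    · exact ⟨1, h3⟩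
    · exact ⟨2, h3⟩
  choose k hk using hdir
  obtain ⟨i, j, hij, hkij⟩ := Fintype.exists_ne_map_eq_of_card_lt k (by simp; omega)
  have h1 := hk i
  have h2 := hk j
  rw [← hkij] at h2
  obtain ⟨u, v, huv⟩ := cross
    (a := fun b => ![L (i, b), L (i, b) + t (i, b), t (i, b)] (k i))
    (b := fun b => ![R (i, b) - t (i, b), R (i, b), R (i, b) - L (i, b)] (k i))
    (c := fun b => ![L (j, b), L (j, b) + t (j, b), t (j, b)] (k i))
    (d := fun b => ![R (j, b) - t (j, b), R (j, b), R (j, b) - L (j, b)] (k i)) h1 h2
  have h3 : (cocktail n).Adj (i, u) (j, v) := hij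
  have h4 := not_apart (ht _) ((h (i, u) (j, v) h3.ne).mp h3)
  generalize k i = m at huv
  fin_cases m
  · exact h4.1 huv
  · exact h4.2.1 huv
  · exact h4.2.2 huv

/-- Every cocktail party graph is a bounded tolerance graph. -/
theorem bounded (n : ℕ) : IsBoundedTolerance (cocktail n) := by
  -- the shift of the second vertex of a part
  let e : Bool → ℝ := fun b => if b then 1 else 0
  have he : ∀ b, 0 ≤ e b ∧ e b ≤ 1 := by
    intro b
    cases b <;> simp [e]
  let L : Fin n × Bool → ℝ := fun v => 2 * (v.1 : ℝ) + e v.2
  let R : Fin n × Bool → ℝ := fun v => 4 * n + 2 - 2 * (v.1 : ℝ) + e v.2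
  have hlt : ∀ v : Fin n × Bool, (v.1 : ℝ) + 1 ≤ n := by
    intro v
    have := v.1.isLt
    exact_mod_cast this
  have hpos : ∀ v, 0 < R v - L v := by
    intro v
    have := hlt v
    have h0 : (0 : ℝ) ≤ n := Nat.cast_nonneg n
    simp only [R, L]
    linarith
  -- different parts
  have key : ∀ x y : Fin n × Bool, x.1 < y.1 → R y - L y ≤ interLength (L x) (R x) (L y) (R y) := by
    intro x y hxy
    have h1 : (x.1 : ℝ) + 1 ≤ (y.1 : ℝ) := by
      have : (x.1 : ℕ) + 1 ≤ (y.1 : ℕ) := hxy
      exact_mod_cast this
    have h2 : L x ≤ L y := by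
      simp only [L]
      linarith [(he x.2).2, (he y.2).1]
    have h3 : R y ≤ R x := by
      simp only [R]
      linarith [(he y.2).2, (he x.2).1]
    unfold interLength
    rw [max_eq_right h2, min_eq_right h3]
    exact le_max_right _ _
  have hsymm : ∀ x y : Fin n × Bool, interLength (L x) (R x) (L y) (R y) =
      interLength (L y) (R y) (L x) (R x) := by
    intro x y
    unfold interLength
    rw [min_comm, max_comm (L x)]
  -- the same part
  have same : ∀ i : Fin n, interLength (L (i, false)) (R (i, false)) (L (i, true)) (R (i, true)) <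
      min (R (i, false) - L (i, false)) (R (i, true) - L (i, true)) := by
    intro i
    have h1 := hpos (i, false)
    have h2 := hpos (i, true)
    have h0 : (0 : ℝ) ≤ n := Nat.cast_nonneg n
    have h3 := hlt (i, false)
    simp only [R, L, e] at h1 h2 h3 ⊢
    unfold interLength
    rw [max_lt_iff, lt_min_iff, lt_min_iff]
    refine ⟨⟨h1, h2⟩, ?_, ?_⟩
    · have := min_le_left (4 * (n : ℝ) + 2 - 2 * (i : ℝ) + if false = true then 1 else 0)
        (4 * (n : ℝ) + 2 - 2 * (i : ℝ) + if true = true then 1 else 0)
      have := le_max_right (2 * (i : ℝ) + if false = true then 1 else 0)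
        (2 * (i : ℝ) + if true = true then 1 else 0)
      simp at *
    · have := min_le_left (4 * (n : ℝ) + 2 - 2 * (i : ℝ) + if false = true then 1 else 0)
        (4 * (n : ℝ) + 2 - 2 * (i : ℝ) + if true = true then 1 else 0)
      have := le_max_right (2 * (i : ℝ) + if false = true then 1 else 0)
        (2 * (i : ℝ) + if true = true then 1 else 0)
      simp at *
  refine ⟨L, R, fun v => R v - L v, fun v => by linarith [hpos v], hpos, fun v => le_rfl, ?_⟩
  rintro ⟨i, b⟩ ⟨j, c⟩ hne
  constructor
  · intro hadj
    rcases lt_or_gt_of_ne (show i ≠ j from hadj) with h | h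
    · exact (min_le_right _ _).trans (key (i, b) (j, c) h)
    · rw [hsymm]
      exact (min_le_left _ _).trans (key (j, c) (i, b) h)
  · intro hle hij
    change i = j at hij
    subst hij
    have hs := same i
    cases b <;> cases c
    · exact hne rfl
    · exact absurd hle (not_le.mpr hs)
    · rw [hsymm, min_comm] at hle
      exact absurd hle (not_le.mpr hs)
    · exact hne rfl

/-- The answer to Q1 is no: the graph `K_{2,2,2,2}` (and every cocktail party graph with at least
four parts) is a bounded tolerance graph, but not a max-tolerance graph. -/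
theorem result :
    (¬ ∀ (V : Type) [Finite V] (G : SimpleGraph V), IsBoundedTolerance G → IsMaxTolerance G) ∧
    ∀ n : ℕ, 4 ≤ n → IsBoundedTolerance (cocktail n) ∧ ¬ IsMaxTolerance (cocktail n) :=
  ⟨fun h => not_max le_rfl (h _ (cocktail 4) (bounded 4)), fun n hn => ⟨bounded n, not_max hn⟩⟩

end Pool.Agent.Results.MP_78c384_co.CocktailParty
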